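import Pool.Agent.Lib.MP_72c78a_ag_Q2.Main

/-!
# Finite CI-dimension of the derivation module does not imply complete intersection

Question Q2 of MP_72c78a_ag has a negative answer, over every field `k` of characteristic zero: there
is a local domain `R = k[x_1, …, x_m]_q ⧸ I` whose module of `k`-derivations has CI-dimension zero,
although `R` is not a complete intersection.

The ring: `Q` is the localisation at the origin of the third Veronese subring of `k[x, y, z]`, `f` is an
explicit polynomial in `x ^ 3 + y ^ 3 + z ^ 3`, `x y z` and
`(x y) ^ 3 + (y z) ^ 3 + (z x) ^ 3` with initial form `x ^ 9 + y ^ 9 + z ^ 9`, and `R = Q ⧸ (f)`, a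
two-dimensional normal Gorenstein domain.  The quasi-deformation is `R = R ← Q`, and the module of
derivations has the free resolution `0 → Q ^ 4 → Q ^ 4 → Der → 0` whose matrix is skew with
Pfaffian `f` up to a unit.
-/

set_option autoImplicit false

namespace Pool.Agent.Results.MP_72c78a_ag.CIdimCounterexample

open MP72Q2

universe u

theorem result (k : Type u) [Field k] [CharZero k] :
    ∃ (m : ℕ) (q : Ideal (MvPolynomial (Fin m) k)) (_ : q.IsPrime)
      (I : Ideal (Localization.AtPrime q)) (_ : I.IsPrime)
      (R : Type u) (_ : CommRing R) (_ : IsLocalRing R) (_ : Algebra k R),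
      Nonempty (R ≃ₐ[k] (Localization.AtPrime q ⧸ I)) ∧
      CIdimLE R (Derivation k R R) 0 ∧ ¬ IsCI R :=
  main k

end Pool.Agent.Results.MP_72c78a_ag.CIdimCounterexample
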