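import Pool.Agent.Lib.MP_72c78a_ag.DepthOne

/-!
# Q1 for local rings of depth at most one

`R` is a reduced local ring essentially of finite type over a field `k` of characteristic zero
and the depth of `R` is at most one (for instance `dim R ≤ 1`). If the module of `k`-derivations
of `R` has finite G-dimension then `R` is Gorenstein.
-/

universe u v

open MP72c78a

theorem Pool.Agent.Results.MP_72c78a_ag.DepthAtMostOne.result
    {k : Type v} {R : Type u} [Field k] [CharZero k] [CommRing R] [Algebra k R]
    [Algebra.EssFiniteType k R] [IsLocalRing R] [IsReduced R]
    (hdepth : DepthLEOne R) (h : FiniteGdim R (Derivation k R R)) :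
    IsGorensteinLocal R := by
  haveI : IsNoetherianRing R := Algebra.EssFiniteType.isNoetherianRing k R
  exact gorenstein_of_depthLEOne hdepth h
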