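import Pool.Agent.Lib.MP_72c78a_ag.SurfO

/-!
# Q1 for normal surface singularities

`k` is a field of characteristic zero and `S` is a normal Noetherian local domain over `k` with two
coordinates: elements `x 0`, `x 1` generating the maximal ideal, and `k`-derivations `δ 0`, `δ 1`
with `δ i (x j) = 1` or `0` according to `i = j` or not, such that a `k`-derivation of `S` which
kills both coordinates is zero (for instance `S = k[[x, y]]`). `R` is a normal local domain which is
a finite extension of `S`. If `Der_k(R)` has finite G-dimension over `R`, then `R` is Gorenstein.

By Noether normalisation every normal ring `R = k[[x_1, ..., x_m]]/I` of dimension two is a finite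
extension of `S = k[[x, y]]`, so this settles Q1 for all complete normal surface singularities.
-/

universe u v

open MP72c78a

theorem Pool.Agent.Results.MP_72c78a_ag.NormalSurface.result
    {k : Type v} {S R : Type u} [Field k] [CharZero k]
    [CommRing S] [IsDomain S] [IsNoetherianRing S] [IsLocalRing S] [IsIntegrallyClosed S]
    [Algebra k S]
    (x : Fin 2 → S) (hx : Ideal.span (Set.range x) = IsLocalRing.maximalIdeal S)
    (δ : Fin 2 → Derivation k S S) (hδ : ∀ i j, δ i (x j) = if i = j then 1 else 0)
    (hδ' : ∀ D : Derivation k S S, (∀ i, D (x i) = 0) → D = 0)
    [CommRing R] [IsDomain R] [IsLocalRing R] [IsIntegrallyClosed R]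
    [Algebra S R] [FaithfulSMul S R] [Module.Finite S R] [Algebra k R] [IsScalarTower k S R]
    (h : FiniteGdim R (Derivation k R R)) :
    IsGorensteinLocal R :=
  gorenstein_of_normal_surface x hx δ hδ hδ' h
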