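import Pool.Agent.Lib.MP_72c78a_ag.OmegaBar

/-!
# Vanishing of `Ext` for differentials and derivations forces the Gorenstein property

`R` is a reduced local ring essentially of finite type over a field `k` of characteristic zero,
`T` is a torsion submodule of the module of differentials (possibly zero), the modules
`Ext^i_R(Ω[R⁄k] ⧸ T, R)` vanish for all `i ≥ 1` and `Ext^1_R(Der_k(R), R) = 0`.
Then `R` is Gorenstein.
-/

universe u v

open MP72c78a CategoryTheory Abelian

theorem Pool.Agent.Results.MP_72c78a_ag.OmegaExtVanishing.result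
    {k : Type v} {R : Type u} [Field k] [CharZero k] [CommRing R] [Algebra k R]
    [Algebra.EssFiniteType k R] [IsLocalRing R] [IsReduced R]
    (T : Submodule R (Ω[R⁄k])) (hT : T ≤ Submodule.torsion R (Ω[R⁄k]))
    (hE : ∀ i, 1 ≤ i → Subsingleton
      (Ext (ModuleCat.of R (Ω[R⁄k] ⧸ T)) (ModuleCat.of R R) i))
    (hD : Subsingleton (Ext (ModuleCat.of R (Derivation k R R)) (ModuleCat.of R R) 1)) :
    IsGorensteinLocal R :=
  gorenstein_of_quotient T hT hE hD
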